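import Mathlib
import Pool.Agent.Lib.Pd40e3cE.Eighth

set_option autoImplicit false

namespace Pool.Agent.Results.MP_d40e3c_co.EveryBelowEighth

/-- `h^A`: the set of sums of `h` pairwise distinct elements of `A`. -/
def hatSum {G : Type} [AddCommGroup G] (h : ℕ) (A : Finset G) : Set G :=
  {s | ∃ B : Finset G, B ⊆ A ∧ B.card = h ∧ ∑ x ∈ B, x = s}

/-- `Σ*A`: the union of the sets `h^A` over all `h ≥ 1`. -/
def sigmaStar {G : Type} [AddCommGroup G] (A : Finset G) : Set G :=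
  ⋃ h : ℕ, ⋃ _ : 1 ≤ h, hatSum h A

/-- `A` is weakly zero-sum-free: `0` is not in `Σ*A`. -/
def WeaklyZeroSumFree {G : Type} [AddCommGroup G] (A : Finset G) : Prop :=
  (0 : G) ∉ sigmaStar A

/-- `ρ_Z(G, m)`: the minimum of `|Σ*A|` over the weakly zero-sum-free `A ⊆ G` with `|A| = m`,
and `∞` if there is none. -/
noncomputable def rhoZ (G : Type) [AddCommGroup G] (m : ℕ) : ℕ∞ :=
  ⨅ (A : Finset G) (_ : A.card = m) (_ : WeaklyZeroSumFree A), (sigmaStar A).encard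

/-- `f(m)`: the minimum of `ρ_Z(G, m)` over all finite abelian groups `G`. -/
noncomputable def f (m : ℕ) : ℕ∞ :=
  ⨅ (G : Type) (_ : AddCommGroup G) (_ : Finite G), rhoZ G m

/-- For every real `c < 1/8`, `f(m) ≥ ⌈c m²⌉` for all but finitely many `m`. -/
theorem result (c : ℝ) (hc : c < 1 / 8) :
    ∀ᶠ m : ℕ in Filter.atTop, (⌈c * (m : ℝ) ^ 2⌉₊ : ℕ∞) ≤ f m := by
  classical
  obtain ⟨M, hM⟩ := Pool.Agent.Lib.Pd40e3cE.main hc
  refine Filter.eventually_atTop.2 ⟨M, fun m hm => ?_⟩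
  refine le_iInf fun G => le_iInf fun _ => le_iInf fun _ => ?_
  refine le_iInf fun A => le_iInf fun hAm => le_iInf fun hA => ?_
  have hmem : ∀ B : Finset G, B ⊆ A → B.Nonempty → ∑ x ∈ B, x ∈ sigmaStar A := by
    intro B hB hne
    simp only [sigmaStar, hatSum, Set.mem_iUnion, Set.mem_setOf_eq]
    exact ⟨B.card, hne.card_pos, B, hB, rfl, rfl⟩
  have hZ : Pool.Agent.Lib.Pd40e3c.ZSF A := fun B hB hne h0 => hA (by
    have := hmem B hB hne
    rwa [h0] at this)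
  have h1 := hM G A (by omega) hZ
  have hsub : sigmaStar A ⊆ ↑(Pool.Agent.Lib.Pd40e3c.ss A) := by
    intro y hy
    simp only [sigmaStar, hatSum, Set.mem_iUnion, Set.mem_setOf_eq] at hy
    obtain ⟨h, _, B, hB, _, rfl⟩ := hy
    exact Finset.mem_coe.2 (Pool.Agent.Lib.Pd40e3c.mem_ss.2 ⟨B, hB, rfl⟩)
  have hfin : (sigmaStar A).Finite := (Finset.finite_toSet _).subset hsub
  have hsub2 : (↑(Pool.Agent.Lib.Pd40e3c.ss A) : Set G) ⊆ insert 0 (sigmaStar A) := by
    intro y hy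
    obtain ⟨B, hB, rfl⟩ := Pool.Agent.Lib.Pd40e3c.mem_ss.1 (Finset.mem_coe.1 hy)
    rcases B.eq_empty_or_nonempty with rfl | hne
    · left; simp
    · right; exact hmem B hB hne
  have h2 : (Pool.Agent.Lib.Pd40e3c.ss A).card ≤ (sigmaStar A).ncard + 1 := by
    have h3 := Set.ncard_le_ncard hsub2 (hfin.insert 0)
    rw [Set.ncard_coe_finset] at h3
    exact h3.trans (Set.ncard_insert_le _ _)
  have h4 : (((Pool.Agent.Lib.Pd40e3c.ss A).card : ℕ) : ℝ) ≤ (sigmaStar A).ncard + 1 := by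
    exact_mod_cast h2
  rw [← hfin.cast_ncard_eq, Nat.cast_le]
  apply Nat.ceil_le.2
  rw [← hAm]
  linarith

end Pool.Agent.Results.MP_d40e3c_co.EveryBelowEighth
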